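import Pool.Agent.TH977.LL.Typ
import Pool.Agent.TH977.LL.Main

set_option autoImplicit false

/-!
Local law of the heights: how many odd numbers below `x` have height exactly `k`.

In the central range `|k - log x / log (4/3)| ≤ B √(log x)` the number of the odd `m < x` of height
exactly `k` is of the order `x / √(log x)`, already among the `m ≥ x / 16`; for all other `k` it is at
most of this order. Moreover for every `k` these `m` are equidistributed in the residue classes modulo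
`3 ^ i`, with an error below every power of `log x`, uniformly for `3 ^ i` up to
`exp (log 3 √(log x / 2))`.
-/

namespace Pool.Agent.Results.MP_2b866c_nt.HeightLocalLaw

/-- `C(m) = (3m+1)/2^e(m)`, `2^e(m)` the largest power of `2` dividing `3m+1` -/
def C (m : ℕ) : ℕ := (3 * m + 1) / 2 ^ padicValNat 2 (3 * m + 1)

/-- the height `h(m)`, the least `k ≥ 1` with `C^k(m) = 1`, and `⊤ = ∞` if there is none -/
noncomputable def height (m : ℕ) : ℕ∞ := sInf {k : ℕ∞ | ∃ j : ℕ, 1 ≤ j ∧ C^[j] m = 1 ∧ k = j}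

/-- the number of the odd `m` with `a ≤ m < x`, `h(m) = k` and `m ≡ b` modulo `q` -/
noncomputable def count (a x : ℝ) (q : ℕ) (b : ℤ) (k : ℕ) : ℝ :=
  ({m : ℕ | a ≤ m ∧ (m : ℝ) < x ∧ Odd m ∧ height m = k ∧ (m : ℤ) ≡ b [ZMOD q]}.ncard : ℝ)

open Pool.Agent.H499R2.ND in
theorem height_iff {m h : ℕ} : height m = h ↔ IsHt m h := by
  have h1 : ∀ {m h : ℕ}, IsHt m h → height m = h := by
    intro m h hh
    unfold height
    apply le_antisymm
    · exact sInf_le ⟨h, hh.1, hh.2.1, rfl⟩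
    · refine le_sInf ?_
      rintro k ⟨j, hj, hj1, rfl⟩
      have : h ≤ j := by
        by_contra hlt
        exact hh.2.2 j hj (by omega) hj1
      exact_mod_cast this
  refine ⟨fun hm => ?_, h1⟩
  classical
  have hex : ∃ k, 1 ≤ k ∧ C^[k] m = 1 := by
    by_contra hcon
    have : {k : ℕ∞ | ∃ j : ℕ, 1 ≤ j ∧ C^[j] m = 1 ∧ k = j} = ∅ := by
      rw [Set.eq_empty_iff_forall_notMem]
      rintro k ⟨j, hj, hj1, _⟩
      exact hcon ⟨j, hj, hj1⟩
    unfold height at hm
    rw [this, sInf_empty] at hm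
    exact ENat.natCast_ne_top h hm.symm
  have h2 : IsHt m (Nat.find hex) :=
    ⟨(Nat.find_spec hex).1, (Nat.find_spec hex).2, fun k hk hlt hk1 => Nat.find_min hex hlt ⟨hk, hk1⟩⟩
  have h3 := h1 h2
  rw [hm] at h3
  have h4 : h = Nat.find hex := by exact_mod_cast h3
  rw [h4]
  exact h2

open Pool.Agent.H499R2.ND Pool.Agent.TH977.LL

/-- the counts in terms of the level sets -/
theorem count_eq {a x : ℝ} (ha : 1 < a) (i : ℕ) (b : ℤ) (k : ℕ) :
    count a x (3 ^ i) b k = ((cls (HS 1 0 k) a x i 1 b).card : ℝ) := by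
  unfold count
  congr 1
  have e : {m : ℕ | a ≤ m ∧ (m : ℝ) < x ∧ Odd m ∧ height m = k ∧ (m : ℤ) ≡ b [ZMOD (3 ^ i : ℕ)]} =
      (fun x : ℤ => x.toNat) '' (cls (HS 1 0 k) a x i 1 b : Set ℤ) := by
    ext n
    rw [Set.mem_image]
    constructor
    · rintro ⟨h1, h2, h3, h4, h5⟩
      refine ⟨(n : ℤ), ?_, by simp⟩
      rw [Finset.mem_coe, mem_cls]
      have hn : n ≠ 1 := by
        rintro rfl
        norm_num at h1
        linarith
      refine ⟨⟨by exact_mod_cast h1, by exact_mod_cast h2⟩, by exact_mod_cast h3,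
        (ht_iff_HS hn).1 (height_iff.1 h4), ?_⟩
      rw [one_mul]
      have := h5.symm.dvd
      push_cast at this
      exact this
    · rintro ⟨y, hy, rfl⟩
      rw [Finset.mem_coe, mem_cls] at hy
      obtain ⟨⟨h1, h2⟩, h3, h4, h5⟩ := hy
      have hy0 : (0 : ℤ) ≤ y := by
        have : (0 : ℝ) ≤ y := by linarith
        exact_mod_cast this
      obtain ⟨n, rfl⟩ := Int.eq_ofNat_of_zero_le hy0
      have hn : n ≠ 1 := by
        rintro rfl
        norm_num at h1
        linarith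
      simp only [Int.toNat_natCast]
      refine ⟨by exact_mod_cast h1, by exact_mod_cast h2, by exact_mod_cast h3,
        height_iff.2 ((ht_iff_HS hn).2 h4), ?_⟩
      rw [one_mul] at h5
      have : ((3 ^ i : ℕ) : ℤ) ∣ (n : ℤ) - b := by push_cast; exact h5
      exact (Int.modEq_iff_dvd.2 this).symm
  rw [e, Set.InjOn.ncard_image, Set.ncard_coe_finset]
  intro y hy z hz hyz
  rw [Finset.mem_coe, mem_cls] at hy hz
  have hy0 : (0 : ℤ) ≤ y := by
    have : (0 : ℝ) ≤ y := by linarith [hy.1.1]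
    exact_mod_cast this
  have hz0 : (0 : ℤ) ≤ z := by
    have : (0 : ℝ) ≤ z := by linarith [hz.1.1]
    exact_mod_cast this
  simp only at hyz
  omega

/-- the number `1` is not in the level sets with `k ≥ 1` -/
theorem cls_two {k : ℕ} (hk : 1 ≤ k) (x : ℝ) (i : ℕ) (b : ℤ) :
    cls (HS 1 0 k) 1 x i 1 b = cls (HS 1 0 k) 2 x i 1 b := by
  ext y
  rw [mem_cls, mem_cls]
  constructor
  · rintro ⟨⟨h1, h2⟩, h3, h4, h5⟩
    refine ⟨⟨?_, h2⟩, h3, h4, h5⟩
    have hy : 1 ≤ y := by exact_mod_cast h1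
    rcases eq_or_lt_of_le hy with h6 | h6
    · exfalso
      have h7 : (1 : ℤ) ∈ HS 1 0 ((0 : ℕ) : ℤ) := ⟨0, rfl, by simp, by simp⟩
      rw [← h6] at h4
      have h8 := HS_unique h7 h4
      omega
    · have : (2 : ℤ) ≤ y := by omega
      exact_mod_cast this
  · rintro ⟨⟨h1, h2⟩, h3⟩
    exact ⟨⟨by linarith, h2⟩, h3⟩

theorem count_zero (a x : ℝ) (q : ℕ) (b : ℤ) : count a x q b 0 = 0 := by
  unfold count
  have : {m : ℕ | a ≤ m ∧ (m : ℝ) < x ∧ Odd m ∧ height m = (0 : ℕ) ∧ (m : ℤ) ≡ b [ZMOD q]} = ∅ := by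
    rw [Set.eq_empty_iff_forall_notMem]
    rintro m ⟨_, _, _, h, _⟩
    have := (height_iff.1 h).1
    omega
  rw [this]
  simp

/-- THE LOCAL LAW OF THE HEIGHTS. Let `N(a, x; q, b; k)` be the number of the odd `m`, `a ≤ m < x`,
`m ≡ b` modulo `q`, with height exactly `k`.
(1) `N(2, x; 1, 0; k) ≤ C x / √(log x)` for all `x ≥ 2` and all `k`.
(2) `N(x/16, x; 1, 0; k) ≥ c(B) x / √(log x)` if `|k - log x / log (4/3)| ≤ B √(log x)`, `x ≥ x₀(B)`.
(3) For every `R` the numbers `N(2, x; 3^i, b; k)` and `N(2, x; 3^i, b'; k)` differ by at most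
`C(R) x / (3^i (log x)^R)`, for all `x ≥ 2`, all `k`, all `b`, `b'` and all `i` with
`i ^ 2 ≤ (log x) / 2`. -/
theorem result :
    (∃ C : ℝ, 0 < C ∧ ∀ x : ℝ, 2 ≤ x → ∀ k : ℕ, count 2 x 1 0 k ≤ C * x / Real.sqrt (Real.log x)) ∧
    (∀ B : ℝ, 0 < B → ∃ c x₀ : ℝ, 0 < c ∧ 2 ≤ x₀ ∧ ∀ x : ℝ, x₀ ≤ x → ∀ k : ℕ,
      |(k : ℝ) - Real.log x / Real.log (4 / 3)| ≤ B * Real.sqrt (Real.log x) →
      c * x / Real.sqrt (Real.log x) ≤ count (x / 16) x 1 0 k) ∧
    (∀ R : ℕ, ∃ C : ℝ, 0 < C ∧ ∀ x : ℝ, 2 ≤ x → ∀ i k : ℕ, (i : ℝ) ^ 2 ≤ Real.log x / 2 → ∀ b b' : ℤ,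
      |count 2 x (3 ^ i) b k - count 2 x (3 ^ i) b' k| ≤ C * x / (3 ^ i * Real.log x ^ R)) := by
  refine ⟨?_, ?_, ?_⟩
  · obtain ⟨C, hC, h⟩ := cnt_upp (al := 1) (be := 0) (by norm_num)
    refine ⟨C, hC, fun x hx k => ?_⟩
    have hl0 : 0 < Real.log x := Real.log_pos (by linarith)
    rcases Nat.eq_zero_or_pos k with hk | hk
    · subst hk
      rw [count_zero]
      positivity
    · have h1 := h x hx k
      rw [cls_two hk x] at h1
      have h2 := count_eq (a := 2) (x := x) (by norm_num) 0 0 k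
      rw [pow_zero] at h2
      rw [h2]
      exact h1
  · intro B hB
    obtain ⟨c0, B2, hc0, hB2, E0, hE0⟩ := typ 1 0
    obtain ⟨c, x0, hc, hx02, h⟩ := cnt_low (al := 1) (be := 0) (Or.inl ⟨rfl, rfl⟩) hc0 hB2 hE0 hB
    refine ⟨c, max x0 32, hc, hx02.trans (le_max_left _ _), fun x hx k hk => ?_⟩
    have hx1 : x0 ≤ x := (le_max_left _ _).trans hx
    have hx2 : 32 ≤ x := (le_max_right _ _).trans hx
    have h2 := count_eq (a := x / 16) (x := x) (by linarith) 0 0 k
    rw [pow_zero] at h2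
    rw [h2]
    apply h x hx1 k
    have e : lam 1 0 * Real.log x = Real.log x / Real.log (4 / 3) := by
      have : Real.log (4 / 3) = hh := Pool.Agent.H499R2.HL.nu_eq
      rw [this]
      unfold lam
      push_cast
      ring
    rw [e]
    exact_mod_cast hk
  · intro R
    obtain ⟨C, hC, h⟩ := cnt_equi 1 0 R
    refine ⟨C, hC, fun x hx i k hi b b' => ?_⟩
    have hl0 : 0 < Real.log x := Real.log_pos (by linarith)
    rcases Nat.eq_zero_or_pos k with hk | hk
    · subst hk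
      rw [count_zero, count_zero, sub_zero, abs_zero]
      positivity
    · have h1 := h x hx i hi k b b'
      have h2 := h x hx i hi k b' b
      rw [cls_two hk x, cls_two hk x] at h1 h2
      rw [count_eq (by norm_num), count_eq (by norm_num), abs_le]
      constructor <;> linarith

end Pool.Agent.Results.MP_2b866c_nt.HeightLocalLaw
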